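import Pool.Agent.N661.JM.Fin2
import Pool.Agent.N438.JMMARG
import Pool.Agent.N438.JMCOMB
import Pool.Agent.N401.JMPOL
import Pool.Agent.N488.JMLVJ

/-!
# Project JM: everything together

Leaves by helper401, helper438 and helper488.
-/

set_option autoImplicit false
open MeasureTheory Filter Topology Complex ProbabilityTheory
open scoped ContDiff ENNReal

namespace Pool.Agent.N661.JM

open Pool.Agent.N661.BR
open Pool.Agent.N661.BH (HP)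
open Pool.Agent.N814.BHASM (Hyp)

/-- moments up to order four of joint limits of the values -/
theorem joint' {d : ℕ} {S : Type*} [MeasurableSpace S] {P : Measure S} [IsProbabilityMeasure P]
    {μ : Measure (Fin d → MW)} [IsProbabilityMeasure μ] {κ : Kernel S (Fin d → MW)}
    [IsMarkovKernel κ] (hd : 0 < d) {Ω : Set ℂ}
    {lam : Fin d → ℕ → ℝ}
    {u : Fin d → ℕ → ℂ → ℝ} (H : ∀ i, Hyp Ω (lam i) (u i)) (hμ : JointLaws Ω lam u μ)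
    (hκ : P.bind κ = μ) (herg : ∀ᵐ s ∂P, IsStationaryI (κ s) ∧ IsErgodicI (κ s))
    (m : Fin d → S → ℝ) (ν : Fin d → Kernel S ℝ) [∀ i, IsMarkovKernel (ν i)]
    (hν : ∀ i, ∀ᵐ s ∂P, ∀ w w' : ℂ, ∫ f, f i w * f i w' ∂(κ s) = m i s * cov (ν i s) (w - w'))
    (hvar : ∀ i, ∫ f, f i 0 ^ 2 ∂μ = 1) (hp : ∀ i, ∀ᵐ s ∂P, m i s ^ 2 * parallel (ν i s) = 0) :
    ∃ ρ : Measure (Fin d → ℝ), IsProbabilityMeasure ρ ∧ JointValueLaw Ω u ρ ∧
      Mom ρ P (fun i x => x i) (fun i j s => ∫ f, f i 0 * f j 0 ∂(κ s)) ∧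
      (∀ i, ∀ᵐ s ∂P, ∫ f, f i 0 * f i 0 ∂(κ s) = 1) ∧
      ((∀ i j, i ≠ j → ∫ x, x i ^ 2 * x j ^ 2 ∂ρ = 1) ↔
        ∀ i j, i ≠ j → ∀ᵐ s ∂P, ∫ f, f i 0 * f j 0 ∂(κ s) = 0) ∧
      ((∀ i j, i ≠ j → ∀ᵐ s ∂P, ∫ f, f i 0 * f j 0 ∂(κ s) = 0) → ∀ i j k l,
        ∫ x, x i * x j * x k * x l ∂ρ =
          (if i = j ∧ k = l then 1 else 0) + (if i = k ∧ j = l then 1 else 0) +
            (if i = l ∧ j = k then 1 else 0)) :=
  joint Pool.Agent.N438.JM.MARG Pool.Agent.N438.JMC.COMB Pool.Agent.N401.JM.POL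
    Pool.Agent.N488.JMLVJ.LVJ hd H hμ hκ herg m ν hν hvar hp

end Pool.Agent.N661.JM
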