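import Pool.Agent.N661.BH.Defs3

/-!
# Project JM (helper661): joint local laws of several eigenfunctions, definitions

`Ω` is an open subset of the hyperbolic plane (the half plane `im z > 0` with the area measure
`(im z)⁻² dx dy`), and `u i n`, `i < d`, are real functions on it.
-/

set_option autoImplicit false
open MeasureTheory Filter Topology Complex ProbabilityTheory
open scoped ContDiff

namespace Pool.Agent.N661.JM

open Pool.Agent.N661.BR (MW lin shift)
open Pool.Agent.N661.BH (area frames loc)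

noncomputable section

/-- simultaneous translation of the functions `f i` -/
def shiftI {d : ℕ} (x : ℂ) (f : Fin d → MW) : Fin d → MW := fun i => shift x (f i)

/-- `μ` is invariant under simultaneous translations -/
def IsStationaryI {d : ℕ} (μ : Measure (Fin d → MW)) : Prop := ∀ x : ℂ, μ.map (shiftI x) = μ

/-- `μ` is ergodic for the simultaneous translations -/
def IsErgodicI {d : ℕ} (μ : Measure (Fin d → MW)) : Prop :=
  ∀ A : Set (Fin d → MW), MeasurableSet A → (∀ x : ℂ, shiftI x ⁻¹' A =ᵐ[μ] A) → μ A = 0 ∨ μ A = 1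

/-- the joint local laws of `u i n`, `i < d`, over `Ω` converge to `μ` -/
def JointLaws {d : ℕ} (Ω : Set ℂ) (lam : Fin d → ℕ → ℝ) (u : Fin d → ℕ → ℂ → ℝ)
    (μ : Measure (Fin d → MW)) : Prop :=
  ∀ (k : ℕ) (w : Fin k → ℂ) (t : Fin d → Fin k → ℝ),
    Tendsto (fun n => (area Ω fun z => frames (fun v => Complex.exp (I *
        ((∑ i, ∑ j, t i j * loc (lam i n) (u i n) z (v j) : ℝ) : ℂ))) w) / area Ω fun _ => 1)
      atTop (𝓝 (∫ f, Complex.exp (I * ((∑ i, lin w (t i) (f i) : ℝ) : ℂ)) ∂μ))

/-- the laws of the values `(u i n z)_i` at a random point `z` of `Ω` converge weakly to `ρ` -/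
def JointValueLaw {d : ℕ} (Ω : Set ℂ) (u : Fin d → ℕ → ℂ → ℝ) (ρ : Measure (Fin d → ℝ)) : Prop :=
  ∀ g : (Fin d → ℝ) → ℝ, Continuous g → (∃ C : ℝ, ∀ x, |g x| ≤ C) →
    Tendsto (fun n => (∫ z in Ω, g (fun i => u i n z) / z.im ^ 2) / ∫ z in Ω, 1 / z.im ^ 2) atTop
      (𝓝 (∫ x, g x ∂ρ))

/-- the moments up to order four of the random variables `X i` are those of a Gaussian vector with
the random covariance matrix `c i j s`, `s` of law `P` -/
structure Mom {d : ℕ} {E S : Type*} [MeasurableSpace E] [MeasurableSpace S] (μ : Measure E)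
    (P : Measure S) (X : Fin d → E → ℝ) (c : Fin d → Fin d → S → ℝ) : Prop where
  fin : ∀ i, Integrable (fun e => X i e ^ 4) μ
  one : ∀ i, ∫ e, X i e ∂μ = 0
  two : ∀ i j, ∫ e, X i e * X j e ∂μ = ∫ s, c i j s ∂P
  three : ∀ i j k, ∫ e, X i e * X j e * X k e ∂μ = 0
  four : ∀ i j k l, ∫ e, X i e * X j e * X k e * X l e ∂μ =
    ∫ s, (c i j s * c k l s + c i k s * c j l s + c i l s * c j k s) ∂P

end

end Pool.Agent.N661.JM
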