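import Pool.Agent.N661.JM.Stm
import Pool.Agent.N661.BH.Val

/-!
# Project JM: assembly
-/

set_option autoImplicit false
open MeasureTheory Filter Topology Complex ProbabilityTheory
open scoped ContDiff ENNReal

namespace Pool.Agent.N661.JM

open Pool.Agent.N661.BR (MW lin shift IsStationary IsErgodic Good cov parallel meas_eval dis)
open Pool.Agent.N661.BH (LocalLaws int_bind int_low good4 comp_of_np')
open Pool.Agent.N814.BHASM (Hyp)

theorem meas_ev {d : ℕ} (i : Fin d) : Measurable fun f : Fin d → MW => f i :=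
  measurable_pi_apply i

theorem meas_ev0 {d : ℕ} (i : Fin d) : Measurable fun f : Fin d → MW => (f i : ℂ → ℝ) 0 :=
  (meas_eval 0).comp (meas_ev i)

theorem int_marg {d : ℕ} (μ : Measure (Fin d → MW)) (i : Fin d) {g : MW → ℝ}
    (hg : Measurable g) : ∫ f, g f ∂(marg μ i) = ∫ f, g (f i) ∂μ :=
  integral_map (meas_ev i).aemeasurable hg.aestronglyMeasurable

theorem intble_marg {d : ℕ} (μ : Measure (Fin d → MW)) (i : Fin d) {g : MW → ℝ}
    (hg : Measurable g) : Integrable g (marg μ i) ↔ Integrable (fun f => g (f i)) μ :=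
  integrable_map_measure hg.aestronglyMeasurable (meas_ev i).aemeasurable

theorem prod4_int {E : Type*} [MeasurableSpace E] {μ : Measure E} [IsProbabilityMeasure μ]
    {x y z t : E → ℝ} (hx : Measurable x) (hy : Measurable y) (hz : Measurable z)
    (ht : Measurable t) (ix : Integrable (fun e => x e ^ 4) μ)
    (iy : Integrable (fun e => y e ^ 4) μ) (iz : Integrable (fun e => z e ^ 4) μ)
    (it : Integrable (fun e => t e ^ 4) μ) : Integrable (fun e => x e * y e * z e * t e) μ := by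
  refine (((ix.add iy).add iz).add it).mono' (((hx.mul hy).mul hz).mul ht).aestronglyMeasurable
    (Eventually.of_forall fun e => ?_)
  simp only [Pi.add_apply, Real.norm_eq_abs]
  rw [abs_le]
  constructor <;>
    nlinarith [sq_nonneg (x e * y e + z e * t e), sq_nonneg (x e * y e - z e * t e),
      sq_nonneg (x e ^ 2 - y e ^ 2), sq_nonneg (z e ^ 2 - t e ^ 2), sq_nonneg (x e ^ 2),
      sq_nonneg (y e ^ 2), sq_nonneg (z e ^ 2), sq_nonneg (t e ^ 2)]

variable {d : ℕ} {S : Type*} [MeasurableSpace S] {P : Measure S} [IsProbabilityMeasure P]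
  {κ : Kernel S (Fin d → MW)} [IsMarkovKernel κ] {μ : Measure (Fin d → MW)}
  [IsProbabilityMeasure μ]

/-- the components -/
theorem comps (hM : S_MARG) (hC : S_COMB) (hPl : S_POL) {Ω : Set ℂ} {lam : Fin d → ℕ → ℝ}
    {u : Fin d → ℕ → ℂ → ℝ} (H : ∀ i, Hyp Ω (lam i) (u i)) (hμ : JointLaws Ω lam u μ)
    (hκ : P.bind κ = μ) (herg : ∀ᵐ s ∂P, IsStationaryI (κ s) ∧ IsErgodicI (κ s))
    (m : Fin d → S → ℝ) (ν : Fin d → Kernel S ℝ) [∀ i, IsMarkovKernel (ν i)]
    (hν : ∀ i, ∀ᵐ s ∂P, ∀ w w' : ℂ, ∫ f, f i w * f i w' ∂(κ s) = m i s * cov (ν i s) (w - w'))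
    (hvar : ∀ i, ∫ f, f i 0 ^ 2 ∂μ = 1) (hp : ∀ i, ∀ᵐ s ∂P, m i s ^ 2 * parallel (ν i s) = 0) :
    ∀ᵐ s ∂P, (∀ i, Good (marg (κ s) i)) ∧ (∀ i, ∫ f, f i 0 ∂(κ s) = 0) ∧
      (∀ i j k, ∫ f, f i 0 * f j 0 * f k 0 ∂(κ s) = 0) ∧
      ∀ i j k l, ∫ f, f i 0 * f j 0 * f k 0 * f l 0 ∂(κ s) =
        (∫ f, f i 0 * f j 0 ∂(κ s)) * (∫ f, f k 0 * f l 0 ∂(κ s)) +
        (∫ f, f i 0 * f k 0 ∂(κ s)) * (∫ f, f j 0 * f l 0 ∂(κ s)) +
        (∫ f, f i 0 * f l 0 ∂(κ s)) * ∫ f, f j 0 * f k 0 ∂(κ s) := by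
  have hgood : ∀ i, ∀ᵐ s ∂P, Good (marg (κ s) i) ∧ ∫ f, f i 0 ∂(κ s) = 0 := by
    intro i
    haveI : IsProbabilityMeasure (marg μ i) :=
      Measure.isProbabilityMeasure_map (meas_ev i).aemeasurable
    haveI : IsMarkovKernel (κ.map fun f => f i) := Kernel.IsMarkovKernel.map κ (meas_ev i)
    have hap : ∀ s, (κ.map fun f => f i) s = marg (κ s) i := fun s =>
      Kernel.map_apply κ (meas_ev i) s
    have hb : P.bind (κ.map fun f => f i) = marg μ i := by
      ext A hA
      rw [Measure.bind_apply hA (Kernel.measurable _).aemeasurable, marg,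
        Measure.map_apply (meas_ev i) hA, ← hκ,
        Measure.bind_apply (meas_ev i hA) (Kernel.measurable _).aemeasurable]
      refine lintegral_congr fun s => ?_
      rw [hap, marg, Measure.map_apply (meas_ev i) hA]
    have h1 := comp_of_np' (H i) ((hM d μ inferInstance i).1 Ω lam u hμ) hb (by
        filter_upwards [herg] with s hs
        rw [hap]
        exact ⟨(hM d (κ s) inferInstance i).2.1 hs.1, (hM d (κ s) inferInstance i).2.2 hs.2⟩)
      (m i) (ν i) (by
        filter_upwards [hν i] with s hs w w'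
        rw [hap]
        exact (int_marg (g := fun f : MW => f w * f w') _ _
          ((meas_eval w).mul (meas_eval w'))).trans (hs w w'))
      ((int_marg (g := fun f : MW => f 0 ^ 2) _ _ ((meas_eval 0).pow_const 2)).trans (hvar i))
      (hp i)
    filter_upwards [h1] with s hs
    rw [hap] at hs
    refine ⟨hs.1, ?_⟩
    rw [← int_marg (κ s) i (meas_eval 0)]
    exact hs.2.1 0
  have hall := ae_all_iff.2 hgood
  filter_upwards [hall, herg] with s hs he
  have hco := hC d (κ s) inferInstance he.1 he.2 fun i => (hs i).1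
  have h4 : ∀ i, Integrable (fun f : Fin d → MW => f i 0 ^ 4) (κ s) := fun i =>
    (intble_marg (κ s) i ((meas_eval 0).pow_const 4)).1 ((hs i).1.fin 0)
  obtain ⟨p1, p2⟩ := hPl d (Fin d → MW) inferInstance (κ s) inferInstance (fun i f => f i 0)
    meas_ev0 h4 (fun α => (hco α).2.2.1) (fun α => (hco α).2.2.2)
  exact ⟨fun i => (hs i).1, fun i => (hs i).2, p1, p2⟩

/-- the moments of the mixture -/
theorem moms (hM : S_MARG) (hC : S_COMB) (hPl : S_POL) {Ω : Set ℂ} {lam : Fin d → ℕ → ℝ}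
    {u : Fin d → ℕ → ℂ → ℝ} (H : ∀ i, Hyp Ω (lam i) (u i)) (hμ : JointLaws Ω lam u μ)
    (hκ : P.bind κ = μ) (herg : ∀ᵐ s ∂P, IsStationaryI (κ s) ∧ IsErgodicI (κ s))
    (m : Fin d → S → ℝ) (ν : Fin d → Kernel S ℝ) [∀ i, IsMarkovKernel (ν i)]
    (hν : ∀ i, ∀ᵐ s ∂P, ∀ w w' : ℂ, ∫ f, f i w * f i w' ∂(κ s) = m i s * cov (ν i s) (w - w'))
    (hvar : ∀ i, ∫ f, f i 0 ^ 2 ∂μ = 1) (hp : ∀ i, ∀ᵐ s ∂P, m i s ^ 2 * parallel (ν i s) = 0) :
    Mom μ P (fun i f => f i 0) (fun i j s => ∫ f, f i 0 * f j 0 ∂(κ s)) := by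
  have hc := comps hM hC hPl H hμ hκ herg m ν hν hvar hp
  have f4 : ∀ i, Integrable (fun f : Fin d → MW => f i 0 ^ 4) μ := by
    intro i
    have hm : Measurable fun f : Fin d → MW => ENNReal.ofReal (f i 0 ^ 4) :=
      ENNReal.measurable_ofReal.comp ((meas_ev0 i).pow_const 4)
    refine ⟨((meas_ev0 i).pow_const 4).aestronglyMeasurable, ?_⟩
    rw [hasFiniteIntegral_iff_ofReal (Eventually.of_forall fun f => by positivity), ← hκ,
      Measure.lintegral_bind κ.measurable.aemeasurable hm.aemeasurable]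
    have h1 : ∀ᵐ s ∂P, ∫⁻ f, ENNReal.ofReal (f i 0 ^ 4) ∂(κ s) = 3 := by
      filter_upwards [hc] with s hs
      have h2 := good4 (hs.1 i)
      rw [int_marg _ _ ((meas_eval 0).pow_const 4)] at h2
      rw [← ofReal_integral_eq_lintegral_ofReal
        ((intble_marg (κ s) i ((meas_eval 0).pow_const 4)).1 h2.1)
        (Eventually.of_forall fun f => by positivity), h2.2]
      norm_num
    rw [lintegral_congr_ae h1]
    simp
  have o : ∀ x : ℝ, (1 : ℝ) ^ 4 = 1 := fun _ => by norm_num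
  have i1 : Integrable (fun _ : Fin d → MW => (1 : ℝ) ^ 4) μ := integrable_const _
  have p4 := fun i j k l => prod4_int (meas_ev0 i) (meas_ev0 j) (meas_ev0 k) (meas_ev0 l)
    (f4 i) (f4 j) (f4 k) (f4 l)
  have p3 : ∀ i j k, Integrable (fun f : Fin d → MW => f i 0 * f j 0 * f k 0) μ := fun i j k => by
    simpa only [mul_one] using prod4_int (meas_ev0 i) (meas_ev0 j) (meas_ev0 k)
      measurable_const (f4 i) (f4 j) (f4 k) i1
  have p2 : ∀ i j, Integrable (fun f : Fin d → MW => f i 0 * f j 0) μ := fun i j => by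
    simpa only [mul_one] using prod4_int (meas_ev0 i) (meas_ev0 j) measurable_const
      measurable_const (f4 i) (f4 j) i1 i1
  have p1 : ∀ i, Integrable (fun f : Fin d → MW => f i 0) μ := fun i => by
    simpa only [mul_one] using prod4_int (meas_ev0 i) measurable_const measurable_const
      measurable_const (f4 i) i1 i1 i1
  refine ⟨f4, fun i => ?_, fun i j => int_bind hκ (p2 i j), fun i j k => ?_,
    fun i j k l => ?_⟩
  · rw [int_bind hκ (p1 i), integral_congr_ae (hc.mono fun s hs => hs.2.1 i), integral_zero]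
  · rw [int_bind hκ (p3 i j k), integral_congr_ae (hc.mono fun s hs => hs.2.2.1 i j k),
      integral_zero]
  · rw [int_bind hκ (p4 i j k l)]
    exact integral_congr_ae (hc.mono fun s hs => hs.2.2.2 i j k l)

end Pool.Agent.N661.JM
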