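import Pool.Agent.N661.JM.Fin

/-!
# Project JM: the law of the values
-/

set_option autoImplicit false
open MeasureTheory Filter Topology Complex ProbabilityTheory
open scoped ContDiff ENNReal

namespace Pool.Agent.N661.JM

open Pool.Agent.N661.BR (MW lin shift IsStationary IsErgodic Good cov parallel meas_eval dis)
open Pool.Agent.N661.BH (LocalLaws int_bind int_low good4 comp_of_np' J0_zero)
open Pool.Agent.N814.BHASM (Hyp)

variable {d : ℕ} {S : Type*} [MeasurableSpace S] {P : Measure S} [IsProbabilityMeasure P]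
  {κ : Kernel S (Fin d → MW)} [IsMarkovKernel κ] {μ : Measure (Fin d → MW)}
  [IsProbabilityMeasure μ]

theorem meas_ev00 : Measurable fun (f : Fin d → MW) (i : Fin d) => (f i : ℂ → ℝ) 0 :=
  measurable_pi_lambda _ meas_ev0

/-- transport to the law of the values -/
theorem mom_map {c : Fin d → Fin d → S → ℝ} (h : Mom μ P (fun i f => f i 0) c) :
    Mom (μ.map fun f i => f i 0) P (fun i x => x i) c := by
  have hI : ∀ g : (Fin d → ℝ) → ℝ, Continuous g →
      ∫ x, g x ∂(μ.map fun f i => f i 0) = ∫ f : Fin d → MW, g (fun i => f i 0) ∂μ := fun g hg =>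
    integral_map meas_ev00.aemeasurable hg.aestronglyMeasurable
  refine ⟨fun i => ?_, fun i => ?_, fun i j => ?_, fun i j k => ?_, fun i j k l => ?_⟩
  · rw [integrable_map_measure ((measurable_pi_apply i).pow_const 4).aestronglyMeasurable
      meas_ev00.aemeasurable]
    exact h.fin i
  · exact (hI (fun x => x i) (by fun_prop)).trans (h.one i)
  · exact (hI (fun x => x i * x j) (by fun_prop)).trans (h.two i j)
  · exact (hI (fun x => x i * x j * x k) (by fun_prop)).trans (h.three i j k)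
  · exact (hI (fun x => x i * x j * x k * x l) (by fun_prop)).trans (h.four i j k l)

/-- decorrelation -/
theorem decor {E : Type*} [MeasurableSpace E] {ρ : Measure E} {X : Fin d → E → ℝ}
    {c : Fin d → Fin d → S → ℝ} (h : Mom ρ P X c) (h1 : ∀ i, ∀ᵐ s ∂P, c i i s = 1)
    (hm : ∀ i j, Measurable (c i j)) (hb : ∀ i j, ∀ᵐ s ∂P, |c i j s| ≤ 1) :
    ((∀ i j, i ≠ j → ∫ e, X i e ^ 2 * X j e ^ 2 ∂ρ = 1) ↔
      ∀ i j, i ≠ j → ∀ᵐ s ∂P, c i j s = 0) ∧
    ((∀ i j, i ≠ j → ∀ᵐ s ∂P, c i j s = 0) → ∀ i j k l,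
      ∫ e, X i e * X j e * X k e * X l e ∂ρ =
        (if i = j ∧ k = l then 1 else 0) + (if i = k ∧ j = l then 1 else 0) +
          (if i = l ∧ j = k then 1 else 0)) := by
  have hsym : ∀ i j, ∀ᵐ s ∂P, c i j s = c j i s → c i j s * c j i s = c i j s ^ 2 := fun i j =>
    Eventually.of_forall fun s hs => by rw [← hs, sq]
  have hint : ∀ i j, Integrable (fun s => c i j s ^ 2) P := fun i j =>
    Integrable.of_bound ((hm i j).pow_const 2).aestronglyMeasurable 1 ((hb i j).mono fun s hs => by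
      rw [Real.norm_eq_abs, abs_pow]
      exact pow_le_one₀ (abs_nonneg _) hs)
  have key : ∀ i j, ∫ e, X i e ^ 2 * X j e ^ 2 ∂ρ = 1 + 2 * ∫ s, c i j s ^ 2 ∂P := by
    intro i j
    have e1 : ∫ e, X i e ^ 2 * X j e ^ 2 ∂ρ = ∫ e, X i e * X i e * X j e * X j e ∂ρ :=
      integral_congr_ae (Eventually.of_forall fun e => by
        show X i e ^ 2 * X j e ^ 2 = X i e * X i e * X j e * X j e
        ring)
    rw [e1, h.four i i j j]
    have e2 : ∫ s, (c i i s * c j j s + c i j s * c i j s + c i j s * c i j s) ∂P =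
        ∫ s, (1 + 2 * c i j s ^ 2) ∂P :=
      integral_congr_ae (by
        filter_upwards [h1 i, h1 j] with s a b
        rw [a, b]
        ring)
    rw [e2, integral_add (integrable_const _) ((hint i j).const_mul 2), integral_const_mul]
    simp
  refine ⟨⟨fun hx i j hij => ?_, fun hx i j hij => ?_⟩, fun hx i j k l => ?_⟩
  · have h2 := key i j
    rw [hx i j hij] at h2
    have h3 : ∫ s, c i j s ^ 2 ∂P = 0 := by linarith
    rw [integral_eq_zero_iff_of_nonneg (fun s => by positivity) (hint i j)] at h3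
    filter_upwards [h3] with s hs
    have hs' : c i j s ^ 2 = 0 := hs
    exact pow_eq_zero_iff (two_ne_zero) |>.1 hs'
  · rw [key i j, integral_congr_ae ((hx i j hij).mono fun s hs => by
      show c i j s ^ 2 = 0
      rw [hs]; norm_num), integral_zero]
    norm_num
  · rw [h.four]
    have hd : ∀ i j, ∀ᵐ s ∂P, c i j s = if i = j then 1 else 0 := by
      intro i j
      by_cases hij : i = j
      · subst hij
        filter_upwards [h1 i] with s hs
        rw [hs, if_pos rfl]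
      · filter_upwards [hx i j hij] with s hs
        rw [hs, if_neg hij]
    have e : ∫ s, (c i j s * c k l s + c i k s * c j l s + c i l s * c j k s) ∂P =
        ∫ _ : S, ((if i = j ∧ k = l then 1 else 0) + (if i = k ∧ j = l then 1 else 0) +
          (if i = l ∧ j = k then 1 else 0) : ℝ) ∂P := by
      refine integral_congr_ae ?_
      filter_upwards [hd i j, hd k l, hd i k, hd j l, hd i l, hd j k] with s a1 a2 a3 a4 a5 a6
      rw [a1, a2, a3, a4, a5, a6]
      simp only [ite_and, mul_ite, mul_one, mul_zero]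
      congr 1
      · congr 1
        · by_cases h5 : i = j <;> by_cases h6 : k = l <;> simp [h5, h6]
        · by_cases h5 : i = k <;> by_cases h6 : j = l <;> simp [h5, h6]
      · by_cases h5 : i = l <;> by_cases h6 : j = k <;> simp [h5, h6]
    rw [e]
    simp

/-- the main theorem -/
theorem joint (hM : S_MARG) (hC : S_COMB) (hPl : S_POL) (hL : S_LVJ) (hd : 0 < d) {Ω : Set ℂ}
    {lam : Fin d → ℕ → ℝ}
    {u : Fin d → ℕ → ℂ → ℝ} (H : ∀ i, Hyp Ω (lam i) (u i)) (hμ : JointLaws Ω lam u μ)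
    (hκ : P.bind κ = μ) (herg : ∀ᵐ s ∂P, IsStationaryI (κ s) ∧ IsErgodicI (κ s))
    (m : Fin d → S → ℝ) (ν : Fin d → Kernel S ℝ) [∀ i, IsMarkovKernel (ν i)]
    (hν : ∀ i, ∀ᵐ s ∂P, ∀ w w' : ℂ, ∫ f, f i w * f i w' ∂(κ s) = m i s * cov (ν i s) (w - w'))
    (hvar : ∀ i, ∫ f, f i 0 ^ 2 ∂μ = 1) (hp : ∀ i, ∀ᵐ s ∂P, m i s ^ 2 * parallel (ν i s) = 0) :
    ∃ ρ : Measure (Fin d → ℝ), IsProbabilityMeasure ρ ∧ JointValueLaw Ω u ρ ∧
      Mom ρ P (fun i x => x i) (fun i j s => ∫ f, f i 0 * f j 0 ∂(κ s)) ∧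
      (∀ i, ∀ᵐ s ∂P, ∫ f, f i 0 * f i 0 ∂(κ s) = 1) ∧
      ((∀ i j, i ≠ j → ∫ x, x i ^ 2 * x j ^ 2 ∂ρ = 1) ↔
        ∀ i j, i ≠ j → ∀ᵐ s ∂P, ∫ f, f i 0 * f j 0 ∂(κ s) = 0) ∧
      ((∀ i j, i ≠ j → ∀ᵐ s ∂P, ∫ f, f i 0 * f j 0 ∂(κ s) = 0) → ∀ i j k l,
        ∫ x, x i * x j * x k * x l ∂ρ =
          (if i = j ∧ k = l then 1 else 0) + (if i = k ∧ j = l then 1 else 0) +
            (if i = l ∧ j = k then 1 else 0)) := by
  have hc := comps hM hC hPl H hμ hκ herg m ν hν hvar hp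
  have hm := moms hM hC hPl H hμ hκ herg m ν hν hvar hp
  haveI : IsProbabilityMeasure (μ.map fun (f : Fin d → MW) (i : Fin d) => (f i : ℂ → ℝ) 0) :=
    Measure.isProbabilityMeasure_map meas_ev00.aemeasurable
  have h1 : ∀ i, ∀ᵐ s ∂P, ∫ f, f i 0 * f i 0 ∂(κ s) = 1 := by
    intro i
    filter_upwards [hc] with s hs
    have h2 := (hs.1 i).two 0 0
    rw [sub_zero, norm_zero, J0_zero] at h2
    exact (int_marg (g := fun f : MW => f 0 * f 0) _ _
      ((meas_eval 0).mul (meas_eval 0))).symm.trans h2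
  have hmc : ∀ i j : Fin d, Measurable fun s => ∫ f, f i 0 * f j 0 ∂(κ s) := fun i j =>
    (StronglyMeasurable.integral_kernel (κ := κ)
      ((meas_ev0 i).mul (meas_ev0 j)).stronglyMeasurable).measurable
  have hb : ∀ i j : Fin d, ∀ᵐ s ∂P, |∫ f, f i 0 * f j 0 ∂(κ s)| ≤ 1 := by
    intro i j
    filter_upwards [hc, h1 i, h1 j] with s hs ei ej
    have f4 : ∀ i, Integrable (fun f : Fin d → MW => f i 0 ^ 4) (κ s) := fun i =>
      (intble_marg (κ s) i ((meas_eval 0).pow_const 4)).1 ((hs.1 i).fin 0)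
    have i1 : Integrable (fun _ : Fin d → MW => (1 : ℝ) ^ 4) (κ s) := integrable_const _
    have p2 : ∀ i j, Integrable (fun f : Fin d → MW => f i 0 * f j 0) (κ s) := fun i j => by
      simpa only [mul_one] using prod4_int (meas_ev0 i) (meas_ev0 j) measurable_const
        measurable_const (f4 i) (f4 j) i1 i1
    have q : ∀ (e : ℝ), e = 1 ∨ e = -1 → e * ∫ f, f i 0 * f j 0 ∂(κ s) ≤ 1 := by
      intro e he
      rw [← integral_const_mul]
      have e2 : ∫ f, (f i 0 * f i 0 + f j 0 * f j 0) / 2 ∂(κ s) = 1 := by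
        rw [integral_div, integral_add (p2 i i) (p2 j j), ei, ej]
        norm_num
      rw [← e2]
      refine integral_mono ((p2 i j).const_mul e) (((p2 i i).add (p2 j j)).div_const 2) fun f => ?_
      show e * (f i 0 * f j 0) ≤ (f i 0 * f i 0 + f j 0 * f j 0) / 2
      rcases he with rfl | rfl
      · nlinarith [sq_nonneg ((f i : ℂ → ℝ) 0 - (f j : ℂ → ℝ) 0)]
      · nlinarith [sq_nonneg ((f i : ℂ → ℝ) 0 + (f j : ℂ → ℝ) 0)]
    rw [abs_le]
    constructor
    · have := q (-1) (Or.inr rfl)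
      linarith
    · have := q 1 (Or.inl rfl)
      linarith
  have hmm := mom_map hm
  obtain ⟨d1, d2⟩ := decor hmm h1 hmc hb
  exact ⟨_, inferInstance, hL d Ω lam u H hd μ inferInstance hμ, hmm, h1, d1, d2⟩

end Pool.Agent.N661.JM
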