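import Pool.Agent.N661.JM.Defs
import Pool.Agent.N661.BR.Fin5
import Pool.Agent.N661.BR.Fin4
import Pool.Agent.N661.BH.Stm3

/-!
# Project JM (helper661): joint moments of several eigenfunctions (MP_a28cf0_nt)
-/

set_option autoImplicit false
open MeasureTheory Filter Topology Complex ProbabilityTheory
open scoped ContDiff

namespace Pool.Agent.N661.JM

open Pool.Agent.N661.BR (MW lin shift IsStationary IsErgodic Good)
open Pool.Agent.N661.BH (LocalLaws)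
open Pool.Agent.N814.BHASM (Hyp)

noncomputable section

/-- the law of `f i` -/
def marg {d : ℕ} (μ : Measure (Fin d → MW)) (i : Fin d) : Measure MW := μ.map fun f => f i

/-- JM/MARG -/
def S_MARG : Prop := ∀ (d : ℕ) (μ : Measure (Fin d → MW)), IsProbabilityMeasure μ → ∀ i : Fin d,
  (∀ (Ω : Set ℂ) (lam : Fin d → ℕ → ℝ) (u : Fin d → ℕ → ℂ → ℝ), JointLaws Ω lam u μ →
    LocalLaws Ω (lam i) (u i) (marg μ i)) ∧
  (IsStationaryI μ → IsStationary (marg μ i)) ∧ (IsErgodicI μ → IsErgodic (marg μ i))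

/-- JM/COMB: linear combinations of the values at `0` -/
def S_COMB : Prop := ∀ (d : ℕ) (μ : Measure (Fin d → MW)), IsProbabilityMeasure μ →
  IsStationaryI μ → IsErgodicI μ → (∀ i, Good (marg μ i)) → ∀ α : Fin d → ℝ,
    Integrable (fun f => (∑ i, α i * f i 0) ^ 4) μ ∧ ∫ f, (∑ i, α i * f i 0) ∂μ = 0 ∧
    ∫ f, (∑ i, α i * f i 0) ^ 3 ∂μ = 0 ∧
    ∫ f, (∑ i, α i * f i 0) ^ 4 ∂μ = 3 * (∫ f, (∑ i, α i * f i 0) ^ 2 ∂μ) ^ 2

/-- JM/POL: polarisation -/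
def S_POL : Prop := ∀ (d : ℕ) (E : Type) (_ : MeasurableSpace E) (μ : Measure E),
  IsProbabilityMeasure μ → ∀ X : Fin d → E → ℝ, (∀ i, Measurable (X i)) →
  (∀ i, Integrable (fun e => X i e ^ 4) μ) →
  (∀ α : Fin d → ℝ, ∫ e, (∑ i, α i * X i e) ^ 3 ∂μ = 0) →
  (∀ α : Fin d → ℝ, ∫ e, (∑ i, α i * X i e) ^ 4 ∂μ = 3 * (∫ e, (∑ i, α i * X i e) ^ 2 ∂μ) ^ 2) →
  (∀ i j k, ∫ e, X i e * X j e * X k e ∂μ = 0) ∧
  ∀ i j k l, ∫ e, X i e * X j e * X k e * X l e ∂μ =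
    (∫ e, X i e * X j e ∂μ) * (∫ e, X k e * X l e ∂μ) +
    (∫ e, X i e * X k e ∂μ) * (∫ e, X j e * X l e ∂μ) +
    (∫ e, X i e * X l e ∂μ) * ∫ e, X j e * X k e ∂μ

/-- JM/LVJ: joint laws of the values -/
def S_LVJ : Prop := ∀ (d : ℕ) (Ω : Set ℂ) (lam : Fin d → ℕ → ℝ) (u : Fin d → ℕ → ℂ → ℝ),
  (∀ i, Hyp Ω (lam i) (u i)) → 0 < d → ∀ μ : Measure (Fin d → MW), IsProbabilityMeasure μ →
  JointLaws Ω lam u μ → JointValueLaw Ω u (μ.map fun f i => f i 0)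

end

end Pool.Agent.N661.JM
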